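import Mathlib
import Pool.Agent.Helper106.MX.Key

/-!
# Mixing length of dihedral groups: at most `1 + ∑ cost q` for `Dih_n`, `q` over the prime factors of `n`
-/

set_option autoImplicit false

open Finset

namespace Pool.Agent.Results.MP_a2f62e_al.DihedralBound

/-- The distribution of the random subproduct `g₁ ^ ε₁ * g₂ ^ ε₂ * ... * g_k ^ ε_k`, where
`L = [(g₁, p₁), ..., (g_k, p_k)]` and `ε₁, ..., ε_k` are independent, `ε_i = 1` with probability `p_i`
and `ε_i = 0` otherwise: `law L x` is the probability that the subproduct is `x`. (The empty product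
is `1`; otherwise the first factor is `1` with probability `1 - p₁` and `g₁` with probability `p₁`.) -/
noncomputable def law {G : Type} [Group G] : List (G × ℝ) → G → ℝ
  | [], x => by classical exact if x = 1 then 1 else 0
  | (g, p) :: L, x => (1 - p) * law L x + p * law L (g⁻¹ * x)

/-- Some random subproduct of length `k` is exactly uniform on the finite group `G`. -/
def Mixes (G : Type) [Group G] [Fintype G] (k : ℕ) : Prop :=
  ∃ L : List (G × ℝ), L.length = k ∧ (∀ x ∈ L, 0 ≤ x.2 ∧ x.2 ≤ 1) ∧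
    ∀ x : G, law L x = 1 / (Fintype.card G : ℝ)

section alg

variable {G : Type} [Group G]

/-- the factor `(1 - p) + p g` of the group algebra -/
noncomputable def fac (x : G × ℝ) : MonoidAlgebra ℝ G :=
  (1 - x.2) • (1 : MonoidAlgebra ℝ G) + x.2 • MonoidAlgebra.of ℝ G x.1

theorem law_eq (L : List (G × ℝ)) (x : G) :
    law L x = (((L.map fac).prod : MonoidAlgebra ℝ G)).coeff x := by
  induction L generalizing x with
  | nil =>
    classical
    simp only [law, List.map_nil, List.prod_nil, MonoidAlgebra.one_def,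
      MonoidAlgebra.coeff_single_apply]
    by_cases h : x = 1
    · simp [h]
    · simp [h, Ne.symm h]
  | cons y L ih =>
    obtain ⟨g, p⟩ := y
    rw [List.map_cons, List.prod_cons, law, ih, ih]
    unfold fac
    rw [add_mul, smul_mul_assoc, one_mul, smul_mul_assoc]
    simp [MonoidAlgebra.of_apply, MonoidAlgebra.coeff_single_mul_apply]

theorem sum_law [Fintype G] (L : List (G × ℝ)) : ∑ x : G, law L x = 1 := by
  induction L with
  | nil => classical simp [law]
  | cons y L ih =>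
    obtain ⟨g, p⟩ := y
    simp only [law]
    have h : ∑ x : G, law L (g⁻¹ * x) = ∑ x : G, law L x :=
      Equiv.sum_comp (Equiv.mulLeft g⁻¹) (fun x => law L x)
    rw [Finset.sum_add_distrib, ← Finset.mul_sum, ← Finset.mul_sum, h, ih]
    ring

/-- the intermediate statement -/
def State (r s e : G) (k : ℕ) : Prop :=
  ∃ (L : List (G × ℝ)) (A : MonoidAlgebra ℝ G), L.length = k ∧ (∀ x ∈ L, 0 ≤ x.2 ∧ x.2 ≤ 1) ∧
    (L.map fac).prod = A * fac (s, 1 / 2) ∧ MonoidAlgebra.of ℝ G e * A = A ∧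
    Commute (MonoidAlgebra.of ℝ G r) A ∧ Commute (MonoidAlgebra.of ℝ G s) A

end alg

section ring

variable {Λ : Type} [Ring Λ] [Algebra ℝ Λ]

theorem PP {S P : Λ} (hP : P = (1 / 2 : ℝ) • (1 + S)) (hS : S * S = 1) : P * P = P := by
  subst hP
  rw [smul_mul_smul_comm, mul_add, add_mul, add_mul, one_mul, mul_one, one_mul, hS]
  module

theorem PXP {S P X Y : Λ} (hP : P = (1 / 2 : ℝ) • (1 + S)) (hS : S * S = 1) (hX : S * X = Y * S) :
    P * (X * P) = (1 / 2 : ℝ) • ((X + Y) * P) := by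
  subst hP
  have h1 : (1 + S) * (X * (1 + S)) = (X + Y) * (1 + S) := by
    have h2 : S * (X * S) = Y := by rw [← mul_assoc, hX, mul_assoc, hS, mul_one]
    rw [add_mul, one_mul, mul_add, mul_add, mul_one, h2, hX]
    rw [mul_add (X + Y), mul_one, add_mul X Y S]
    abel
  rw [mul_smul_comm, smul_mul_smul_comm, h1, mul_smul_comm, smul_smul]

theorem comm_step {P T B A : Λ} (hPA : Commute P A) (hTA : Commute T A) (hBA : Commute B A)
    (h : P * (T * P) = B * P) : P * (T * (A * P)) = (B * A) * P := by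
  rw [← mul_assoc T A P, hTA.eq, mul_assoc, ← mul_assoc P A, hPA.eq, mul_assoc, h, ← mul_assoc,
    hBA.eq]

theorem P3 {S P X Y : Λ} (hP : P = (1 / 2 : ℝ) • (1 + S)) (hS : S * S = 1) (hX : S * X = Y * S) :
    P * (((1 / 3 : ℝ) • (1 : Λ) + (2 / 3 : ℝ) • X) * P) =
      ((1 / 3 : ℝ) • (1 + X + Y)) * P := by
  have h1 := PP hP hS
  have h2 := PXP hP hS hX
  rw [add_mul, mul_add, smul_mul_assoc, one_mul, smul_mul_assoc, mul_smul_comm, mul_smul_comm,
    h1, h2, smul_mul_assoc, add_mul, add_mul, add_mul, one_mul]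
  module

theorem P5 {S P X Y : Λ} (hP : P = (1 / 2 : ℝ) • (1 + S)) (hS : S * S = 1) (hX : S * X = Y * S) :
    P * ((((1 / 3 : ℝ) • (1 : Λ) + (2 / 3 : ℝ) • X) *
      ((3 / 5 : ℝ) • (1 : Λ) + (2 / 5 : ℝ) • (X * X))) * P) =
      ((1 / 5 : ℝ) • (1 + X + Y) + (1 / 15 : ℝ) • (X * X + Y * Y) +
        (2 / 15 : ℝ) • (X * (X * X) + Y * (Y * Y))) * P := by
  have h1 := PP hP hS
  have h2 := PXP hP hS hX
  have hX2 : S * (X * X) = (Y * Y) * S := by rw [← mul_assoc, hX, mul_assoc, hX, mul_assoc]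
  have hX3 : S * (X * (X * X)) = (Y * (Y * Y)) * S := by
    rw [← mul_assoc, hX, mul_assoc, hX2, ← mul_assoc]
  have h3 := PXP hP hS hX2
  have h4 := PXP hP hS hX3
  have e : (((1 / 3 : ℝ) • (1 : Λ) + (2 / 3 : ℝ) • X) *
      ((3 / 5 : ℝ) • (1 : Λ) + (2 / 5 : ℝ) • (X * X))) = (1 / 5 : ℝ) • (1 : Λ) + (2 / 5 : ℝ) • X +
      (2 / 15 : ℝ) • (X * X) + (4 / 15 : ℝ) • (X * (X * X)) := by
    rw [add_mul, mul_add, mul_add, smul_mul_smul_comm, smul_mul_smul_comm, smul_mul_smul_comm,
      smul_mul_smul_comm, one_mul, one_mul, mul_one]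
    module
  rw [e]
  rw [add_mul, add_mul, add_mul, mul_add, mul_add, mul_add]
  simp only [smul_mul_assoc, mul_smul_comm, one_mul]
  rw [h1, h2, h3, h4]
  simp only [add_mul, smul_mul_assoc, one_mul, smul_add, smul_smul]
  module

end ring

section grp

variable {G : Type} [Group G]

theorem fac_eq (g : G) (p : ℝ) :
    fac (g, p) = (1 - p) • (1 : MonoidAlgebra ℝ G) + p • MonoidAlgebra.of ℝ G g := rfl

theorem fac_half (s : G) :
    fac (s, (1 / 2 : ℝ)) = (1 / 2 : ℝ) • (1 + MonoidAlgebra.of ℝ G s) := by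
  rw [fac_eq, smul_add]
  norm_num

/-- what the steps need about a power `e` of `r` -/
structure Good (r s e : G) : Prop where
  comm : ∀ A : MonoidAlgebra ℝ G, Commute (MonoidAlgebra.of ℝ G r) A →
    Commute (MonoidAlgebra.of ℝ G e) A ∧ Commute (MonoidAlgebra.of ℝ G e⁻¹) A
  XY : MonoidAlgebra.of ℝ G e * MonoidAlgebra.of ℝ G e⁻¹ = 1
  YX : MonoidAlgebra.of ℝ G e⁻¹ * MonoidAlgebra.of ℝ G e = 1
  SX : MonoidAlgebra.of ℝ G s * MonoidAlgebra.of ℝ G e =
    MonoidAlgebra.of ℝ G e⁻¹ * MonoidAlgebra.of ℝ G s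
  SY : MonoidAlgebra.of ℝ G s * MonoidAlgebra.of ℝ G e⁻¹ =
    MonoidAlgebra.of ℝ G e * MonoidAlgebra.of ℝ G s
  RX : Commute (MonoidAlgebra.of ℝ G r) (MonoidAlgebra.of ℝ G e)
  RY : Commute (MonoidAlgebra.of ℝ G r) (MonoidAlgebra.of ℝ G e⁻¹)

theorem good_pow {r s : G} (hr : s * r = r⁻¹ * s) (j : ℕ) : Good r s (r ^ j) := by
  have h1 : SemiconjBy s r r⁻¹ := hr
  have h1' : SemiconjBy s r⁻¹ r := by
    have := h1.inv_right
    rwa [inv_inv] at this
  have h2 : SemiconjBy s (r ^ j) (r ^ j)⁻¹ := by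
    rw [← inv_pow]
    exact h1.pow_right j
  have h3 : SemiconjBy s (r ^ j)⁻¹ (r ^ j) := by
    rw [← inv_pow]
    exact h1'.pow_right j
  have hXY : MonoidAlgebra.of ℝ G (r ^ j) * MonoidAlgebra.of ℝ G (r ^ j)⁻¹ = 1 := by
    rw [← map_mul, mul_inv_cancel, map_one]
  have hYX : MonoidAlgebra.of ℝ G (r ^ j)⁻¹ * MonoidAlgebra.of ℝ G (r ^ j) = 1 := by
    rw [← map_mul, inv_mul_cancel, map_one]
  refine ⟨fun A hA => ?_, hXY, hYX, ?_, ?_, ?_, ?_⟩
  · have h4 : Commute (MonoidAlgebra.of ℝ G (r ^ j)) A := by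
      rw [map_pow]
      exact hA.pow_left j
    refine ⟨h4, ?_⟩
    have h5 : MonoidAlgebra.of ℝ G (r ^ j)⁻¹ * A = A * MonoidAlgebra.of ℝ G (r ^ j)⁻¹ := by
      calc MonoidAlgebra.of ℝ G (r ^ j)⁻¹ * A
          = MonoidAlgebra.of ℝ G (r ^ j)⁻¹ * (A * MonoidAlgebra.of ℝ G (r ^ j)) *
            MonoidAlgebra.of ℝ G (r ^ j)⁻¹ := by
            rw [mul_assoc, mul_assoc A, hXY, mul_one]
        _ = MonoidAlgebra.of ℝ G (r ^ j)⁻¹ * (MonoidAlgebra.of ℝ G (r ^ j) * A) *
            MonoidAlgebra.of ℝ G (r ^ j)⁻¹ := by rw [h4.eq]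
        _ = A * MonoidAlgebra.of ℝ G (r ^ j)⁻¹ := by
            rw [← mul_assoc (MonoidAlgebra.of ℝ G (r ^ j)⁻¹), hYX, one_mul]
    exact h5
  · rw [← map_mul, ← map_mul, h2.eq]
  · rw [← map_mul, ← map_mul, h3.eq]
  · show _ * _ = _ * _
    rw [← map_mul, ← map_mul, (Commute.self_pow r j).eq]
  · show _ * _ = _ * _
    rw [← map_mul, ← map_mul, (Commute.self_pow r j).inv_right.eq]

theorem state2 {r s e : G} {k : ℕ} (g : Good r s e) (h : State r s (e ^ 2) k) :
    State r s e (k + 1) := by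
  obtain ⟨L, A, hk, hb, hL, heA, hrA, hsA⟩ := h
  obtain ⟨hXA, hYA⟩ := g.comm A hrA
  have hXXA : MonoidAlgebra.of ℝ G e * (MonoidAlgebra.of ℝ G e * A) = A := by
    rw [← mul_assoc, ← map_mul, ← pow_two]
    exact heA
  generalize hX : MonoidAlgebra.of ℝ G e = X at *
  have gXY := g.XY
  have gYX := g.YX
  have gSX := g.SX
  have gSY := g.SY
  have gRX := g.RX
  rw [hX] at gXY gYX gSX gSY gRX
  generalize hY : MonoidAlgebra.of ℝ G e⁻¹ = Y at *
  have hYA' : Y * A = X * A := by
    conv_lhs => rw [← hXXA]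
    rw [← mul_assoc, gYX, one_mul]
  refine ⟨(e, 1 / 2) :: L, ((1 / 2 : ℝ) • (1 + X)) * A, by simp [hk], ?_, ?_, ?_, ?_, ?_⟩
  · intro x hx
    rcases List.mem_cons.1 hx with rfl | hx
    · norm_num
    · exact hb x hx
  · rw [List.map_cons, List.prod_cons, hL, fac_half e, hX, mul_assoc]
  · rw [hX, smul_mul_assoc, mul_smul_comm, add_mul, one_mul, mul_add, hXXA, add_comm]
  · exact (((Commute.one_right _).add_right gRX).smul_right _).mul_right hrA
  · show _ * _ = _ * _
    rw [smul_mul_assoc, mul_smul_comm, smul_mul_assoc, add_mul, one_mul, mul_add, ← mul_assoc,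
      gSX, mul_assoc, hsA.eq, ← mul_assoc, hYA', add_mul]

theorem state3 {r s e : G} {k : ℕ} (hs : s * s = 1) (g : Good r s e) (h : State r s (e ^ 3) k) :
    State r s e (k + 2) := by
  obtain ⟨L, A, hk, hb, hL, heA, hrA, hsA⟩ := h
  obtain ⟨hXA, hYA⟩ := g.comm A hrA
  have hX3 : MonoidAlgebra.of ℝ G e * (MonoidAlgebra.of ℝ G e * (MonoidAlgebra.of ℝ G e * A)) = A := by
    rw [map_pow] at heA
    have h1 : ∀ X : MonoidAlgebra ℝ G, X ^ 3 * A = X * (X * (X * A)) := fun X => by
      simp only [pow_succ, pow_zero, one_mul, mul_assoc]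
    rw [← h1]
    exact heA
  have hSS : MonoidAlgebra.of ℝ G s * MonoidAlgebra.of ℝ G s = 1 := by
    rw [← map_mul, hs, map_one]
  generalize hX : MonoidAlgebra.of ℝ G e = X at *
  have gXY := g.XY
  have gYX := g.YX
  have gSX := g.SX
  have gSY := g.SY
  have gRX := g.RX
  have gRY := g.RY
  rw [hX] at gXY gYX gSX gSY gRX
  generalize hY : MonoidAlgebra.of ℝ G e⁻¹ = Y at *
  have cYX : ∀ Z : MonoidAlgebra ℝ G, Y * (X * Z) = Z := fun Z => by
    rw [← mul_assoc, gYX, one_mul]
  have cXY : ∀ Z : MonoidAlgebra ℝ G, X * (Y * Z) = Z := fun Z => by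
    rw [← mul_assoc, gXY, one_mul]
  have hXX : X * (X * A) = Y * A := by
    conv_rhs => rw [← hX3]
    rw [cYX]
  have hP := fac_half s
  have hPA : Commute (fac (s, (1 / 2 : ℝ))) A := by
    rw [hP]
    exact ((Commute.one_left A).add_left hsA).smul_left _
  have hTA : Commute ((1 / 3 : ℝ) • (1 : MonoidAlgebra ℝ G) + (2 / 3 : ℝ) • X) A :=
    ((Commute.one_left A).smul_left _).add_left (hXA.smul_left _)
  have hBA : Commute ((1 / 3 : ℝ) • (1 + X + Y)) A :=
    (((Commute.one_left A).add_left hXA).add_left hYA).smul_left _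
  refine ⟨(s, 1 / 2) :: (e, 2 / 3) :: L, ((1 / 3 : ℝ) • (1 + X + Y)) * A, by simp [hk], ?_, ?_, ?_,
    ?_, ?_⟩
  · intro x hx
    rcases List.mem_cons.1 hx with rfl | hx
    · norm_num
    rcases List.mem_cons.1 hx with rfl | hx
    · norm_num
    · exact hb x hx
  · rw [List.map_cons, List.prod_cons, List.map_cons, List.prod_cons, hL, fac_eq e, hX]
    have e1 : (1 - 2 / 3 : ℝ) = 1 / 3 := by norm_num
    rw [e1]
    exact comm_step hPA hTA hBA (P3 hP hSS gSX)
  · rw [hX, smul_mul_assoc, mul_smul_comm]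
    congr 1
    simp only [add_mul, one_mul, mul_add, hXX, cXY]
    abel
  · exact ((((Commute.one_right _).add_right gRX).add_right gRY).smul_right _).mul_right hrA
  · refine Commute.mul_right (Commute.smul_right ?_ _) hsA
    show _ * _ = _ * _
    rw [mul_add, mul_add, mul_one, gSX, gSY, add_mul, add_mul, one_mul]
    abel

theorem state5 {r s e : G} {k : ℕ} (hs : s * s = 1) (g : Good r s e) (h : State r s (e ^ 5) k) :
    State r s e (k + 3) := by
  obtain ⟨L, A, hk, hb, hL, heA, hrA, hsA⟩ := h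
  obtain ⟨hXA, hYA⟩ := g.comm A hrA
  have hX5 : MonoidAlgebra.of ℝ G e * (MonoidAlgebra.of ℝ G e * (MonoidAlgebra.of ℝ G e *
      (MonoidAlgebra.of ℝ G e * (MonoidAlgebra.of ℝ G e * A)))) = A := by
    rw [map_pow] at heA
    have h1 : ∀ X : MonoidAlgebra ℝ G, X ^ 5 * A = X * (X * (X * (X * (X * A)))) := fun X => by
      simp only [pow_succ, pow_zero, one_mul, mul_assoc]
    rw [← h1]
    exact heA
  have hSS : MonoidAlgebra.of ℝ G s * MonoidAlgebra.of ℝ G s = 1 := by
    rw [← map_mul, hs, map_one]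
  have hX2 : MonoidAlgebra.of ℝ G (e * e) = MonoidAlgebra.of ℝ G e * MonoidAlgebra.of ℝ G e :=
    map_mul _ _ _
  generalize hX : MonoidAlgebra.of ℝ G e = X at *
  have gXY := g.XY
  have gYX := g.YX
  have gSX := g.SX
  have gSY := g.SY
  have gRX := g.RX
  have gRY := g.RY
  rw [hX] at gXY gYX gSX gSY gRX
  generalize hY : MonoidAlgebra.of ℝ G e⁻¹ = Y at *
  have cYX : ∀ Z : MonoidAlgebra ℝ G, Y * (X * Z) = Z := fun Z => by
    rw [← mul_assoc, gYX, one_mul]
  have cXY : ∀ Z : MonoidAlgebra ℝ G, X * (Y * Z) = Z := fun Z => by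
    rw [← mul_assoc, gXY, one_mul]
  have hXXX : X * (X * (X * A)) = Y * (Y * A) := by
    conv_rhs => rw [← hX5]
    rw [cYX, cYX]
  have hYYY : Y * (Y * (Y * A)) = X * (X * A) := by
    rw [← hXXX, cYX]
  have hP := fac_half s
  have hPA : Commute (fac (s, (1 / 2 : ℝ))) A := by
    rw [hP]
    exact ((Commute.one_left A).add_left hsA).smul_left _
  have hTA : Commute (((1 / 3 : ℝ) • (1 : MonoidAlgebra ℝ G) + (2 / 3 : ℝ) • X) *
      ((3 / 5 : ℝ) • (1 : MonoidAlgebra ℝ G) + (2 / 5 : ℝ) • (X * X))) A :=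
    Commute.mul_left (((Commute.one_left A).smul_left _).add_left (hXA.smul_left _))
      (((Commute.one_left A).smul_left _).add_left ((hXA.mul_left hXA).smul_left _))
  have hBA : Commute ((1 / 5 : ℝ) • (1 + X + Y) + (1 / 15 : ℝ) • (X * X + Y * Y) +
        (2 / 15 : ℝ) • (X * (X * X) + Y * (Y * Y))) A :=
    (((((Commute.one_left A).add_left hXA).add_left hYA).smul_left _).add_left
      (((hXA.mul_left hXA).add_left (hYA.mul_left hYA)).smul_left _)).add_left
      (((hXA.mul_left (hXA.mul_left hXA)).add_left (hYA.mul_left (hYA.mul_left hYA))).smul_left _)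
  have hB : ((1 / 5 : ℝ) • (1 + X + Y) + (1 / 15 : ℝ) • (X * X + Y * Y) +
        (2 / 15 : ℝ) • (X * (X * X) + Y * (Y * Y))) * A =
      (1 / 5 : ℝ) • (A + X * A + Y * A + X * (X * A) + Y * (Y * A)) := by
    simp only [add_mul, smul_mul_assoc, one_mul, mul_assoc, hXXX, hYYY]
    module
  refine ⟨(s, 1 / 2) :: (e, 2 / 3) :: (e * e, 2 / 5) :: L, ((1 / 5 : ℝ) • (1 + X + Y) +
    (1 / 15 : ℝ) • (X * X + Y * Y) + (2 / 15 : ℝ) • (X * (X * X) + Y * (Y * Y))) * A,
    by simp [hk], ?_, ?_, ?_, ?_, ?_⟩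
  · intro x hx
    rcases List.mem_cons.1 hx with rfl | hx
    · norm_num
    rcases List.mem_cons.1 hx with rfl | hx
    · norm_num
    rcases List.mem_cons.1 hx with rfl | hx
    · norm_num
    · exact hb x hx
  · rw [List.map_cons, List.prod_cons, List.map_cons, List.prod_cons, List.map_cons,
      List.prod_cons, hL, fac_eq e, fac_eq (e * e), hX, hX2]
    have e1 : (1 - 2 / 3 : ℝ) = 1 / 3 := by norm_num
    have e2 : (1 - 2 / 5 : ℝ) = 3 / 5 := by norm_num
    rw [e1, e2, ← mul_assoc ((1 / 3 : ℝ) • (1 : MonoidAlgebra ℝ G) + (2 / 3 : ℝ) • X)]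
    exact comm_step hPA hTA hBA (P5 hP hSS gSX)
  · rw [hB, hX, mul_smul_comm]
    congr 1
    simp only [mul_add, hXXX, cXY]
    abel
  · refine Commute.mul_right ?_ hrA
    exact (((((Commute.one_right _).add_right gRX).add_right gRY).smul_right _).add_right
      (((gRX.mul_right gRX).add_right (gRY.mul_right gRY)).smul_right _)).add_right
      (((gRX.mul_right (gRX.mul_right gRX)).add_right
        (gRY.mul_right (gRY.mul_right gRY))).smul_right _)
  · have c1 : MonoidAlgebra.of ℝ G s * (X * X) = (Y * Y) * MonoidAlgebra.of ℝ G s := by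
      rw [← mul_assoc, gSX, mul_assoc, gSX, mul_assoc]
    have c2 : MonoidAlgebra.of ℝ G s * (Y * Y) = (X * X) * MonoidAlgebra.of ℝ G s := by
      rw [← mul_assoc, gSY, mul_assoc, gSY, mul_assoc]
    have c3 : MonoidAlgebra.of ℝ G s * (X * (X * X)) = (Y * (Y * Y)) * MonoidAlgebra.of ℝ G s := by
      rw [← mul_assoc, gSX, mul_assoc, c1, ← mul_assoc]
    have c4 : MonoidAlgebra.of ℝ G s * (Y * (Y * Y)) = (X * (X * X)) * MonoidAlgebra.of ℝ G s := by
      rw [← mul_assoc, gSY, mul_assoc, c2, ← mul_assoc]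
    refine Commute.mul_right (Commute.add_right (Commute.add_right (Commute.smul_right ?_ _)
      (Commute.smul_right ?_ _)) (Commute.smul_right ?_ _)) hsA
    · show _ * _ = _ * _
      rw [mul_add, mul_add, mul_one, gSX, gSY, add_mul, add_mul, one_mul]
      abel
    · show _ * _ = _ * _
      rw [mul_add, c1, c2, add_mul]
      abel
    · show _ * _ = _ * _
      rw [mul_add, c3, c4, add_mul]
      abel

/-- the list of factors for a general odd prime -/
theorem st_list {r s : G} (hs : s * s = 1) (hr : s * r = r⁻¹ * s) (j : ℕ) (θ : ℝ) (h0 : 0 ≤ θ)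
    (h1 : θ ≤ 1) {k : ℕ} {A : MonoidAlgebra ℝ G}
    (hA : ∃ L : List (G × ℝ), L.length = k ∧ (∀ x ∈ L, 0 ≤ x.2 ∧ x.2 ≤ 1) ∧
      (L.map fac).prod = A * fac (s, 1 / 2))
    (hrA : Commute (MonoidAlgebra.of ℝ G r) A) (hsA : Commute (MonoidAlgebra.of ℝ G s) A)
    (cs : List ℕ) :
    (∃ L : List (G × ℝ), L.length = k + 2 * cs.length ∧ (∀ x ∈ L, 0 ≤ x.2 ∧ x.2 ≤ 1) ∧
      (L.map fac).prod = ((cs.map fun c => (1 - θ) • (1 : MonoidAlgebra ℝ G) + (θ / 2) •
        (MonoidAlgebra.of ℝ G (r ^ (j * c)) + MonoidAlgebra.of ℝ G (r ^ (j * c))⁻¹)).prod * A) *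
          fac (s, 1 / 2)) ∧
    Commute (MonoidAlgebra.of ℝ G r) ((cs.map fun c => (1 - θ) • (1 : MonoidAlgebra ℝ G) + (θ / 2) •
        (MonoidAlgebra.of ℝ G (r ^ (j * c)) + MonoidAlgebra.of ℝ G (r ^ (j * c))⁻¹)).prod * A) ∧
    Commute (MonoidAlgebra.of ℝ G s) ((cs.map fun c => (1 - θ) • (1 : MonoidAlgebra ℝ G) + (θ / 2) •
        (MonoidAlgebra.of ℝ G (r ^ (j * c)) + MonoidAlgebra.of ℝ G (r ^ (j * c))⁻¹)).prod * A) := by
  induction cs with
  | nil =>
    simp only [List.map_nil, List.prod_nil, one_mul, List.length_nil, mul_zero, add_zero]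
    exact ⟨hA, hrA, hsA⟩
  | cons c cs ih =>
    obtain ⟨⟨L, hk, hb, hL⟩, hrB, hsB⟩ := ih
    have ha : ∀ T Z : MonoidAlgebra ℝ G, T * Z * A = T * (Z * A) := fun T Z => mul_assoc _ _ _
    rw [List.map_cons, List.prod_cons, ha]
    generalize hBdef : (cs.map fun c => (1 - θ) • (1 : MonoidAlgebra ℝ G) + (θ / 2) •
        (MonoidAlgebra.of ℝ G (r ^ (j * c)) + MonoidAlgebra.of ℝ G (r ^ (j * c))⁻¹)).prod * A = B
      at *
    have g := good_pow (s := s) hr (j * c)
    obtain ⟨hXB, hYB⟩ := g.comm B hrB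
    have hSS : MonoidAlgebra.of ℝ G s * MonoidAlgebra.of ℝ G s = 1 := by
      rw [← map_mul, hs, map_one]
    have gXY := g.XY
    have gYX := g.YX
    have gSX := g.SX
    have gSY := g.SY
    have gRX := g.RX
    have gRY := g.RY
    have hf0 := fac_eq (r ^ (j * c)) θ
    clear g
    generalize MonoidAlgebra.of ℝ G (r ^ (j * c))⁻¹ = Y at *
    generalize hX : MonoidAlgebra.of ℝ G (r ^ (j * c)) = X at *
    have hP := fac_half s
    have hPB : Commute (fac (s, (1 / 2 : ℝ))) B := by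
      rw [hP]
      exact ((Commute.one_left B).add_left hsB).smul_left _
    have hTB : Commute ((1 - θ) • (1 : MonoidAlgebra ℝ G) + θ • X) B :=
      ((Commute.one_left B).smul_left _).add_left (hXB.smul_left _)
    have hCB : Commute ((1 - θ) • (1 : MonoidAlgebra ℝ G) + (θ / 2) • (X + Y)) B :=
      ((Commute.one_left B).smul_left _).add_left ((hXB.add_left hYB).smul_left _)
    have hPT : fac (s, (1 / 2 : ℝ)) * (((1 - θ) • (1 : MonoidAlgebra ℝ G) + θ • X) *
        fac (s, (1 / 2 : ℝ))) = ((1 - θ) • (1 : MonoidAlgebra ℝ G) + (θ / 2) • (X + Y)) *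
        fac (s, (1 / 2 : ℝ)) := by
      have e1 := PP hP hSS
      have e2 := PXP hP hSS gSX
      rw [add_mul, mul_add, smul_mul_assoc, one_mul, smul_mul_assoc, mul_smul_comm, mul_smul_comm,
        e1, e2]
      simp only [add_mul, smul_mul_assoc, one_mul]
      module
    have hlast : fac (s, 1 / 2) * (fac (r ^ (j * c), θ) * (L.map fac).prod) =
        (((1 - θ) • (1 : MonoidAlgebra ℝ G) + (θ / 2) • (X + Y)) * B) * fac (s, 1 / 2) := by
      rw [hL, hf0]
      exact comm_step hPB hTB hCB hPT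
    have hcr : Commute (MonoidAlgebra.of ℝ G r)
        (((1 - θ) • (1 : MonoidAlgebra ℝ G) + (θ / 2) • (X + Y)) * B) :=
      (((Commute.one_right _).smul_right _).add_right
        ((gRX.add_right gRY).smul_right _)).mul_right hrB
    have hcs : Commute (MonoidAlgebra.of ℝ G s)
        (((1 - θ) • (1 : MonoidAlgebra ℝ G) + (θ / 2) • (X + Y)) * B) := by
      refine Commute.mul_right (Commute.add_right ((Commute.one_right _).smul_right _)
        (Commute.smul_right ?_ _)) hsB
      have h8 : MonoidAlgebra.of ℝ G s * (X + Y) = (X + Y) * MonoidAlgebra.of ℝ G s := by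
        rw [mul_add, gSX, gSY, add_mul, add_comm]
      exact h8
    refine ⟨⟨(s, 1 / 2) :: (r ^ (j * c), θ) :: L, by simp [hk]; ring, ?_, ?_⟩, hcr, hcs⟩
    · intro x hx
      rcases List.mem_cons.1 hx with hx1 | hx
      · rw [hx1]; norm_num
      rcases List.mem_cons.1 hx with hx1 | hx
      · rw [hx1]; exact ⟨h0, h1⟩
      · exact hb x hx
    · rw [List.map_cons, List.prod_cons, List.map_cons, List.prod_cons]
      exact hlast

open Polynomial in
theorem state_prime {r s : G} (hs : s * s = 1) (hr : s * r = r⁻¹ * s) (j q : ℕ) {k : ℕ}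
    (hq : q.Prime) (h2 : q ≠ 2) (h : State r s ((r ^ j) ^ q) k) : State r s (r ^ j) (k + (q - 1)) := by
  obtain ⟨L, A, hk, hb, hL, heA, hrA, hsA⟩ := h
  obtain ⟨θ, cs, h0, h1, hlen, hdvd⟩ := Pool.Agent.Helper106.MX.key q hq h2
  obtain ⟨⟨L', hk', hb', hL'⟩, hrB, hsB⟩ := st_list hs hr j θ h0 h1 ⟨L, hk, hb, hL⟩ hrA hsA cs
  refine ⟨L', _, by rw [hk', hlen], hb', hL', ?_, hrB, hsB⟩
  have g := good_pow (s := s) hr j
  set Xg : MonoidAlgebra ℝ G := MonoidAlgebra.of ℝ G (r ^ j) with hXg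
  set Yg : MonoidAlgebra ℝ G := MonoidAlgebra.of ℝ G (r ^ j)⁻¹ with hYg
  have gXY : Xg * Yg = 1 := g.XY
  have gYX : Yg * Xg = 1 := g.YX
  have hcXY : Commute Xg Yg := by
    show _ * _ = _ * _
    rw [gXY, gYX]
  have hXc : ∀ c : ℕ, MonoidAlgebra.of ℝ G (r ^ (j * c)) = Xg ^ c := fun c => by
    rw [pow_mul, map_pow]
  have hYc : ∀ c : ℕ, MonoidAlgebra.of ℝ G (r ^ (j * c))⁻¹ = Yg ^ c := fun c => by
    rw [pow_mul, ← inv_pow, map_pow]
  have hYX : ∀ c : ℕ, Yg ^ c * Xg ^ c = 1 := fun c => by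
    rw [← hcXY.symm.mul_pow, gYX, one_pow]
  have hXY : ∀ c : ℕ, Xg ^ c * Yg ^ c = 1 := fun c => by
    rw [← hcXY.mul_pow, gXY, one_pow]
  have hprod : ∀ cs : List ℕ, Xg ^ cs.sum * (cs.map fun c => (1 - θ) • (1 : MonoidAlgebra ℝ G) +
      (θ / 2) • (MonoidAlgebra.of ℝ G (r ^ (j * c)) + MonoidAlgebra.of ℝ G (r ^ (j * c))⁻¹)).prod =
      aeval Xg (cs.map fun c => C (1 - θ) * X ^ c + C (θ / 2) * (X ^ (2 * c) + 1)).prod := by
    intro cs
    induction cs with
    | nil => simp
    | cons c cs ih =>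
      rw [List.map_cons, List.prod_cons, List.map_cons, List.prod_cons, List.sum_cons, map_mul,
        ← ih, hXc, hYc]
      have hcomm : Commute (Xg ^ cs.sum) ((1 - θ) • (1 : MonoidAlgebra ℝ G) + (θ / 2) •
          (Xg ^ c + Yg ^ c)) :=
        ((Commute.one_right _).smul_right _).add_right (((Commute.pow_pow_self Xg _ _).add_right
          (hcXY.pow_pow _ _)).smul_right _)
      have e1 : aeval Xg (C (1 - θ) * X ^ c + C (θ / 2) * (X ^ (2 * c) + 1) : ℝ[X]) =
          Xg ^ c * ((1 - θ) • (1 : MonoidAlgebra ℝ G) + (θ / 2) • (Xg ^ c + Yg ^ c)) := by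
        have r1 : Xg ^ c * ((1 - θ) • (1 : MonoidAlgebra ℝ G) + (θ / 2) • (Xg ^ c + Yg ^ c)) =
            (1 - θ) • Xg ^ c + (θ / 2) • (Xg ^ (2 * c) + 1) := by
          rw [mul_add, mul_smul_comm, mul_one, mul_smul_comm, mul_add, hXY, ← pow_add, ← two_mul]
        rw [r1]
        simp only [map_add, map_mul, aeval_C, map_pow, aeval_X, map_one, Algebra.smul_def]
      rw [e1, pow_add, mul_assoc, ← mul_assoc (Xg ^ cs.sum), hcomm.eq]
      simp only [mul_assoc]
  generalize hBdef : (cs.map fun c => (1 - θ) • (1 : MonoidAlgebra ℝ G) + (θ / 2) •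
        (MonoidAlgebra.of ℝ G (r ^ (j * c)) + MonoidAlgebra.of ℝ G (r ^ (j * c))⁻¹)).prod = B at *
  have hB := hprod cs
  rw [hBdef] at hB
  obtain ⟨w, hw⟩ := hdvd
  have hXq : Xg ^ q * A = A := by
    rw [← map_pow]
    exact heA
  have hzero : (Xg - 1) * (Xg ^ cs.sum * B) * A = 0 := by
    rw [hB]
    have e2 : (Xg - 1) * aeval Xg (cs.map fun c => C (1 - θ) * X ^ c + C (θ / 2) *
        (X ^ (2 * c) + 1) : List ℝ[X]).prod = aeval Xg w * (Xg ^ q - 1) := by
      have e3 := congrArg (aeval Xg) (hw.trans (mul_comm _ _))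
      have e4 : aeval Xg (X - 1 : ℝ[X]) = Xg - 1 := by simp
      have e5 : aeval Xg (X ^ q - 1 : ℝ[X]) = Xg ^ q - 1 := by simp
      rw [map_mul, map_mul, e4, e5] at e3
      exact e3
    rw [e2, mul_assoc, sub_mul, one_mul, hXq, sub_self, mul_zero]
  have hcx : (Xg - 1) * Xg ^ cs.sum = Xg ^ cs.sum * (Xg - 1) := by
    rw [sub_mul, mul_sub, one_mul, mul_one, ← pow_succ', ← pow_succ]
  have h5 : (Xg - 1) * (B * A) = 0 := by
    have h6 : Yg ^ cs.sum * ((Xg - 1) * (Xg ^ cs.sum * B) * A) = (Xg - 1) * (B * A) := by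
      rw [← mul_assoc (Xg - 1), hcx, mul_assoc, mul_assoc, ← mul_assoc (Yg ^ cs.sum), hYX, one_mul,
        ← mul_assoc]
    rw [← h6, hzero, mul_zero]
  rw [sub_mul, one_mul, sub_eq_zero] at h5
  exact h5

theorem state0 {r s e : G} (he : e = 1) : State r s e 1 := by
  refine ⟨[(s, 1 / 2)], 1, rfl, ?_, by simp, by rw [he, map_one, mul_one], Commute.one_right _,
    Commute.one_right _⟩
  intro x hx
  rcases List.mem_singleton.1 hx with rfl
  norm_num

/-- the cost of a prime factor: `1`, `2`, `3` for `2`, `3`, `5` and `q - 1` for `q ≥ 7` -/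
def cost (q : ℕ) : ℕ := if q = 2 then 1 else if q = 3 then 2 else if q = 5 then 3 else q - 1

theorem state_list {r s : G} (hs : s * s = 1) (hr : s * r = r⁻¹ * s) (l : List ℕ)
    (hl : ∀ q ∈ l, q.Prime) : ∀ m k : ℕ, State r s (r ^ (m * l.prod)) k →
      State r s (r ^ m) (k + (l.map cost).sum) := by
  induction l with
  | nil => intro m k h; simpa using h
  | cons q l ih =>
    intro m k h
    have hq := hl q (List.mem_cons_self ..)
    have h1 : State r s ((r ^ (m * l.prod)) ^ q) k := by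
      rw [← pow_mul]
      convert h using 2
      rw [List.prod_cons]
      ring
    have h2 : State r s (r ^ (m * l.prod)) (k + cost q) := by
      unfold cost
      by_cases e2 : q = 2
      · subst e2
        simpa using state2 (good_pow hr _) h1
      by_cases e3 : q = 3
      · subst e3
        simpa using state3 hs (good_pow hr _) h1
      by_cases e5 : q = 5
      · subst e5
        simpa using state5 hs (good_pow hr _) h1
      · simpa [e2, e3, e5] using state_prime hs hr _ _ hq e2 h1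
    have h3 := ih (fun x hx => hl x (List.mem_cons_of_mem _ hx)) m _ h2
    rw [List.map_cons, List.sum_cons, ← add_assoc]
    exact h3

end grp

/-- from the group algebra to the distribution -/
theorem mixes_of_state {n : ℕ} [NeZero n] {k : ℕ}
    (h : State (DihedralGroup.r 1 : DihedralGroup n) (DihedralGroup.sr 0) (DihedralGroup.r 1) k) :
    Mixes (DihedralGroup n) k := by
  obtain ⟨L, A, hk, hb, hL, heA, hrA, hsA⟩ := h
  refine ⟨L, hk, hb, ?_⟩
  set U : MonoidAlgebra ℝ (DihedralGroup n) := (L.map fac).prod with hU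
  have hr : MonoidAlgebra.of ℝ _ (DihedralGroup.r 1 : DihedralGroup n) * U = U := by
    rw [hL, ← mul_assoc, heA]
  have hs : MonoidAlgebra.of ℝ _ (DihedralGroup.sr 0 : DihedralGroup n) * U = U := by
    have h1 : MonoidAlgebra.of ℝ _ (DihedralGroup.sr 0 : DihedralGroup n) *
        fac (DihedralGroup.sr 0, (1 / 2 : ℝ)) = fac (DihedralGroup.sr 0, (1 / 2 : ℝ)) := by
      rw [fac_half, mul_smul_comm, mul_add, mul_one, ← map_mul]
      rw [show (DihedralGroup.sr 0 * DihedralGroup.sr 0 : DihedralGroup n) = 1 by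
        rw [DihedralGroup.sr_mul_sr, sub_self, DihedralGroup.one_def], map_one, add_comm]
    rw [hL, ← mul_assoc, hsA.eq, mul_assoc, h1]
  have hrp : ∀ j : ℕ, MonoidAlgebra.of ℝ _ ((DihedralGroup.r 1 : DihedralGroup n) ^ j) * U = U := by
    intro j
    induction j with
    | zero => rw [pow_zero, map_one, one_mul]
    | succ j ih => rw [pow_succ, map_mul, mul_assoc, hr, ih]
  have hall : ∀ g : DihedralGroup n, MonoidAlgebra.of ℝ _ g * U = U := by
    intro g
    rcases g with i | i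
    · have h2 : DihedralGroup.r i = (DihedralGroup.r 1 : DihedralGroup n) ^ i.val := by
        rw [DihedralGroup.r_one_pow]
        simp
      rw [h2]
      exact hrp _
    · have h2 : DihedralGroup.sr i = (DihedralGroup.sr 0 : DihedralGroup n) *
          (DihedralGroup.r 1 : DihedralGroup n) ^ i.val := by
        rw [DihedralGroup.r_one_pow, DihedralGroup.sr_mul_r]
        simp
      rw [h2, map_mul, mul_assoc, hrp, hs]
  have hconst : ∀ x : DihedralGroup n, law L x = law L 1 := by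
    intro x
    rw [law_eq, law_eq, ← hU]
    have h2 := congrArg (fun u : MonoidAlgebra ℝ (DihedralGroup n) => u.coeff x) (hall x)
    simp only [MonoidAlgebra.of_apply, MonoidAlgebra.coeff_single_mul_apply] at h2
    rw [inv_mul_cancel, one_mul] at h2
    exact h2.symm
  have hsum := sum_law L
  have h3 : (Fintype.card (DihedralGroup n) : ℝ) * law L 1 = 1 := by
    rw [← hsum, Finset.sum_congr rfl (fun x _ => hconst x)]
    simp
  intro x
  rw [hconst x]
  have h4 : (Fintype.card (DihedralGroup n) : ℝ) ≠ 0 := by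
    intro h0
    rw [h0, zero_mul] at h3
    exact zero_ne_one h3
  field_simp
  linarith [h3]

theorem sum_cost_le (C : ℝ) (l : List ℕ) (hl : ∀ q ∈ l, q.Prime)
    (h : ∀ q ∈ l, (cost q : ℝ) ≤ C * Real.logb 2 q) :
    (((l.map cost).sum : ℕ) : ℝ) ≤ C * Real.logb 2 (l.prod : ℕ) := by
  induction l with
  | nil => simp
  | cons q l ih =>
    have hq := hl q (List.mem_cons_self ..)
    have ih' := ih (fun x hx => hl x (List.mem_cons_of_mem _ hx))
      (fun x hx => h x (List.mem_cons_of_mem _ hx))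
    have hp : (l.prod : ℕ) ≠ 0 := by
      rw [Ne, List.prod_eq_zero_iff]
      intro h0
      exact (hl 0 (List.mem_cons_of_mem _ h0)).ne_zero rfl
    rw [List.map_cons, List.sum_cons, List.prod_cons, Nat.cast_add, Nat.cast_mul,
      Real.logb_mul (Nat.cast_ne_zero.2 hq.ne_zero) (Nat.cast_ne_zero.2 hp)]
    have h1 := h q (List.mem_cons_self ..)
    linarith

/-- **Theorem.** For every `n ≥ 1` the dihedral group `Dih_n` of order `2 n` has an exactly uniform
random subproduct of length `1 + ∑ cost q`, the sum over the prime factors `q` of `n` with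
multiplicity, where `cost q` is `1`, `2`, `3` for `q = 2`, `3`, `5` and `q - 1` for `q ≥ 7`. If
`C ≥ 1` and `cost q ≤ C log₂ q` for all prime factors `q` of `n`, this length is at most
`C * log₂ (2 n)`; in particular it is at most `1.3 * log₂ (2 n)` if `n` has no prime factor above `5`. -/
theorem result (n : ℕ) [NeZero n] :
    Mixes (DihedralGroup n) (1 + (n.primeFactorsList.map cost).sum) ∧
    (∀ C : ℝ, 1 ≤ C → (∀ q ∈ n.primeFactorsList, (cost q : ℝ) ≤ C * Real.logb 2 q) →
      ((1 + (n.primeFactorsList.map cost).sum : ℕ) : ℝ) ≤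
        C * Real.logb 2 (Fintype.card (DihedralGroup n) : ℝ)) ∧
    ((∀ q ∈ n.primeFactorsList, q ≤ 5) →
      ((1 + (n.primeFactorsList.map cost).sum : ℕ) : ℝ) ≤
        13 / 10 * Real.logb 2 (Fintype.card (DihedralGroup n) : ℝ)) := by
  have hn : n ≠ 0 := NeZero.ne n
  have hC : ∀ C : ℝ, 1 ≤ C → (∀ q ∈ n.primeFactorsList, (cost q : ℝ) ≤ C * Real.logb 2 q) →
      ((1 + (n.primeFactorsList.map cost).sum : ℕ) : ℝ) ≤
        C * Real.logb 2 (Fintype.card (DihedralGroup n) : ℝ) := by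
    intro C hC1 h
    have h1 := sum_cost_le C n.primeFactorsList (fun q hq => Nat.prime_of_mem_primeFactorsList hq) h
    rw [Nat.prod_primeFactorsList hn] at h1
    have hc : (Fintype.card (DihedralGroup n) : ℝ) = 2 * n := by
      rw [DihedralGroup.card]
      push_cast
      ring
    rw [hc, Real.logb_mul (by norm_num) (by exact_mod_cast hn),
      Real.logb_self_eq_one (by norm_num)]
    push_cast at h1 ⊢
    linarith
  refine ⟨?_, hC, ?_⟩
  · have h1 : (DihedralGroup.sr 0 : DihedralGroup n) * DihedralGroup.sr 0 = 1 := by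
      rw [DihedralGroup.sr_mul_sr, sub_self, DihedralGroup.one_def]
    have h2 : (DihedralGroup.sr 0 : DihedralGroup n) * DihedralGroup.r 1 =
        (DihedralGroup.r 1)⁻¹ * DihedralGroup.sr 0 := by
      simp
    have h3 := state_list h1 h2 n.primeFactorsList
      (fun q hq => Nat.prime_of_mem_primeFactorsList hq) 1 1 (state0 (by
        rw [Nat.prod_primeFactorsList hn, one_mul]
        exact DihedralGroup.r_one_pow_n))
    rw [pow_one] at h3
    exact mixes_of_state h3
  · intro h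
    refine hC (13 / 10) (by norm_num) ?_
    have h3 : (20 : ℝ) ≤ 13 * Real.logb 2 3 := by
      have h := Real.logb_le_logb_of_le (b := 2) (x := 2 ^ 20) (y := 3 ^ 13) (by norm_num)
        (by norm_num) (by norm_num)
      rw [Real.logb_pow, Real.logb_pow, Real.logb_self_eq_one (by norm_num)] at h
      push_cast at h
      linarith
    have h5 : (30 : ℝ) ≤ 13 * Real.logb 2 5 := by
      have h := Real.logb_le_logb_of_le (b := 2) (x := 2 ^ 30) (y := 5 ^ 13) (by norm_num)
        (by norm_num) (by norm_num)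
      rw [Real.logb_pow, Real.logb_pow, Real.logb_self_eq_one (by norm_num)] at h
      push_cast at h
      linarith
    intro q hq
    have hq' := Nat.prime_of_mem_primeFactorsList hq
    have hq5 := h q hq
    have h2 := hq'.two_le
    interval_cases q
    · simp only [cost, if_true]
      rw [show ((2 : ℕ) : ℝ) = 2 by norm_num, Real.logb_self_eq_one (by norm_num)]
      norm_num
    · simp only [cost]
      norm_num
      linarith
    · exact absurd hq' (by norm_num)
    · simp only [cost]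
      norm_num
      linarith

end Pool.Agent.Results.MP_a2f62e_al.DihedralBound
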